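import Pool.Agent.H391.CV.F

set_option autoImplicit false

/-!
# The centre at the critical level can be larger: type `G₂` in characteristic two

Question Q1 of `MP_b787da_al` asks whether the centre of `V^κ(g)`, at the critical level, is
generated as a vertex algebra by the Harish-Chandra centre and the `p`-centre. The answer is no
for `g` of type `G₂` and `p = 2`.

How the definitions match the problem file (definitions in `D1.lean`, `D2.lean` and `T.lean` of
`Pool/Agent/H391/CV/`):
* `G2 K` with the structure constants `brT`: the Lie algebra over `K` of the group of type `G₂`
  (which is simply connected), in a Chevalley basis `b 0, ..., b 13`; the lemmas `chev_cor`,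
  `chev_hh`, `chev_he`, `chev_ef`, `chev_ee` in `T.lean` check that the table is a Chevalley basis;
* `kf`: the invariant form, normalised so that long roots have squared length two (`chev_form`);
  it is nondegenerate in characteristic two (first part of the theorem);
* `Aff K`, `el x n`, `cel`: the affine Lie algebra, `x_n` and `c`, with
  `[x_m, y_n] = [x, y]_(m+n) + m δ_(m+n,0) ⟨x, y⟩ c`;
* `VV K`: `U(g)` modulo the left ideal generated by the `x_n` with `n ≥ 0` and by `c - κ`, with
  `κ = -h^∨ = -4`; `one K` is its vacuum and `op x n` the action of `x_n`;
* `VertexAlgebra`, `VertexAlgebra.centre`, `VertexAlgebra.gen`: vertex algebras over a field given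
  by all products `a_(n) b` and the Borcherds identity, their centre, and the vertex subalgebra
  generated by a set. The theorem is about every vertex algebra structure on `V^κ(g)` with vacuum
  `|0⟩` for which `x_(-1) |0⟩` has the field `∑ x_n z^(-n-1)`; the structure of the problem file is
  the only one;
* `IsPow x y`: `y` is the restricted power `x^[2]`, the element with `ad y = (ad x)^2`; by the
  second part of the theorem there is exactly one such `y`;
* `Z0`, `twoCentre`: the algebra generated by the `(x_n)^2 - (x^[2])_(2n)`, and the `2`-centre
  (`X ↦ X^2 - X^[2]` is additive, so these elements generate the same algebra as those of all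
  loops);
* `latt K P`: the vector `P |0⟩`, for an integral noncommutative polynomial `P` in the
  `(b a)_(-n-1)`; `ffCentre`: the Feigin-Frenkel centre over the complex numbers, the vectors
  killed by all `x_n` with `n ≥ 0`; `hcCentre K`: the image over `K` of the intersection of the
  Feigin-Frenkel centre with the integral form (its linear span is the Harish-Chandra centre).
-/

namespace Pool.Agent.Results.MP_b787da_al.ExtraCentralVector

open Pool.Agent.H391.CV

universe u

/-- For `g` of type `G₂` over an algebraically closed field of characteristic two, the centre of
the universal affine vertex algebra at the critical level contains a vector outside the vertex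
subalgebra generated by the Harish-Chandra centre and the `2`-centre. -/
theorem result (K : Type u) [Field K] [IsAlgClosed K] [CharP K 2] :
    (∀ x : G2 K, (∀ y : G2 K, kf x y = 0) → x = 0) ∧
    (∀ x : G2 K, ∃! y : G2 K, IsPow x y) ∧
    ∃ v : VV K, (∀ (x : G2 K) (n : ℤ), 0 ≤ n → op x n v = 0) ∧
      ∀ A : VertexAlgebra K (VV K), A.one = one K →
        (∀ (x : G2 K) (n : ℤ) (u : VV K), A.prod n (op x (-1) (one K)) u = op x n u) →
        v ∈ A.centre ∧ v ∉ A.gen (hcCentre K ∪ twoCentre K) :=
  ⟨kf_nondeg K, exists_pow K, final K⟩

end Pool.Agent.Results.MP_b787da_al.ExtraCentralVector
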